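import Mathlib
import Pool.Agent.Lib.helper23.Dual
import Pool.Agent.Lib.helper23.Rec

set_option autoImplicit false

open Set Filter Topology Pool.Agent.Lib.helper23 Pool.Agent.Lib.helper23.Dual
open Cardinal hiding univ
open scoped Pointwise

namespace Pool.Agent.H.MP_5131b0_al

lemma li {ι : Type} [LinearOrder ι] (w : ι → ℝ) (h : ∀ i, w i ∉ Submodule.span ℚ (w '' Iio i)) :
    LinearIndependent ℚ w := linearIndependent_iff.2 fun k hk => by_contra fun h0 => by
  have h1 := Finsupp.support_nonempty_iff.2 h0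
  let i := k.support.max' h1
  have h2 : k i ≠ 0 := Finsupp.mem_support_iff.1 (k.support.max'_mem h1)
  refine h i ((Submodule.smul_mem_iff _ h2).1 ((Finsupp.mem_span_image_iff_linearCombination _).2
    ⟨-k.erase i, fun j hj => ?_, ?_⟩))
  · rw [Finsupp.support_neg, Finsupp.support_erase, Finset.mem_coe, Finset.mem_erase] at hj
    exact (k.support.le_max' j hj.2).lt_of_ne hj.1
  · rw [← k.single_add_erase i, map_add, Finsupp.linearCombination_single] at hk
    rw [map_neg, neg_eq_of_add_eq_zero_left hk]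

lemma indep {J : Type} (hJ : #J ≤ 𝔠) (P : J → Set ℝ) (hP : ∀ j, 𝔠 ≤ #(P j)) :
    ∃ (v : J → ℝ) (L : ℝ →ₗ[ℚ] (Option J →₀ ℚ)), (∀ j, v j ∈ P j) ∧
      (∀ j, L (v j) = .single (some j) 1) ∧ L 1 = .single none 1 := by
  obtain ⟨_, _, h1⟩ := exists_ord_eq_type_lt J
  obtain ⟨v, hv⟩ := trans_rec (W := J)
    (fun j f s => s ∈ P j ∧ s ∉ Submodule.span ℚ (insert 1 (f '' Iio j)))
    (fun j f g s h h' => by rwa [← image_congr (s := Iio j) h]) fun j f _ => by
      by_contra! h
      refine (((hP j).trans (mk_le_mk_of_subset h)).trans_lt ?_).false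
      have : Nonempty ↥(insert (1 : ℝ) (f '' Iio j)) := ⟨⟨1, Or.inl rfl⟩⟩
      rw [Finsupp.span_eq_range_linearCombination]
      refine mk_range_le.trans_lt ?_
      rw [mk_finsupp_of_infinite', mk_eq_aleph0 ℚ]
      exact max_lt (mk_insert_le.trans_lt (add_lt_of_lt aleph0_le_continuum (mk_image_le.trans_lt
        ((mk_Iio_lt j h1).trans_le hJ))
        (one_lt_aleph0.trans aleph0_lt_continuum))) aleph0_lt_continuum
  obtain ⟨L, hL⟩ := LinearMap.exists_leftInverse_of_injective _ (LinearMap.ker_eq_bot.2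
    (li (ι := WithBot J) (fun o => Option.elim o 1 v) fun i h => by
      cases i with
      | bot => simp at h; exact one_ne_zero (h :)
      | coe j =>
        refine (hv j).2 (Submodule.span_mono ?_ h)
        rintro _ ⟨i, hi, rfl⟩
        cases i with
        | bot => exact Or.inl rfl
        | coe i => exact Or.inr ⟨i, WithBot.coe_lt_coe.1 hi, rfl⟩))
  have h2 (o : WithBot J) := LinearMap.congr_fun hL (.single o 1)
  simp only [LinearMap.comp_apply, Finsupp.linearCombination_single, one_smul] at h2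
  exact ⟨v, L, fun j => (hv j).1, fun j => h2 (j : WithBot J), h2 ⊥⟩

def Box {ι : Type} (b : ℕ → ι →₀ ℤ) (P : ι → Set ℝ) : Prop :=
  (∀ j, 𝔠 ≤ #(P j)) ∧ ∀ x : ι → ℝ, (∀ j, x j ∈ P j) →
    Tendsto (fun n => lc (fun j => (x j : T)) (b n)) atTop (𝓝 0)

lemma seq {ι : Type} {A : Set (ι →₀ ℤ)} (hA : A.Infinite) : ∃ b : ℕ → ι →₀ ℤ,
    (∀ n, b n ≠ 0 ∧ b n ∈ A - A) ∧ ∃ P, Box b P := by
  classical
  obtain ⟨f, h1, h2⟩ := exists_seq_of_forall_finset_exists
    (fun p : (ι →₀ ℤ) × ℕ × Finset ι => (p.1 ≠ 0 ∧ p.1 ∈ A - A) ∧ p.1.support ⊆ p.2.2 ∧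
      0 < p.2.1 ∧ ∀ j, (p.1 j).natAbs * p.1.support.card < p.2.1)
    (fun p p' => p.2.1 < p'.2.1 ∧ p.2.2 ⊆ p'.2.2 ∧ ∀ j ∈ p.2.2, ((p.2.1 ^ 2 : ℕ) : ℤ) ∣ p'.1 j)
    fun s hs => by
      let F := s.biUnion fun p => p.2.2
      have : NeZero (∏ p ∈ s, p.2.1 ^ 2) :=
        ⟨(Finset.prod_pos fun p h => pow_pos (hs p h).2.2.1 2).ne'⟩
      obtain ⟨a, h1, a', h2, h3, h4⟩ := hA.exists_ne_map_eq_of_mapsTo
        (f := fun a (j : F) => (a j : ZMod (∏ p ∈ s, p.2.1 ^ 2))) (mapsTo_univ _ _) finite_univ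
      refine ⟨(a' - a, s.sup (·.2.1) + ((a' - a).support.sup fun j => ((a' - a) j).natAbs) *
        (a' - a).support.card + 1, F ∪ (a' - a).support), ⟨⟨sub_ne_zero.2 h3.symm,
        sub_mem_sub h2 h1⟩, Finset.subset_union_right, Nat.succ_pos _, fun j => Nat.lt_succ_of_le
        (le_add_left (Nat.mul_le_mul_right _ ?_))⟩, fun p hp => ⟨Nat.lt_succ_of_le
        (le_add_right (Finset.le_sup (f := (·.2.1)) hp)), (Finset.subset_biUnion_of_mem
        (fun p => p.2.2) hp).trans Finset.subset_union_left, fun j hj => ?_⟩⟩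
      · by_cases h : j ∈ (a' - a).support
        · exact Finset.le_sup (f := fun j => ((a' - a) j).natAbs) h
        · simp only [Finsupp.notMem_support_iff.1 h, Int.natAbs_zero, Nat.zero_le]
      · exact (Int.natCast_dvd_natCast.2 (Finset.dvd_prod_of_mem _ hp)).trans
          ((ZMod.intCast_eq_intCast_iff_dvd_sub _ _ _).1
            (congrFun h4 ⟨j, Finset.mem_biUnion.2 ⟨p, hp, hj⟩⟩))
  let m : ℕ → ℝ := fun n => (f n).2.1
  let N : ℕ → ℝ := fun n => (f n).1.support.card
  have h3 : StrictMono fun n => (f n).2.1 := fun a b h => (h2 a b h).1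
  have h4 (n) : 0 < m n := Nat.cast_pos.2 (h1 n).2.2.1
  have h5 (n) : 0 < N n :=
    Nat.cast_pos.2 (Finset.card_pos.2 (Finsupp.support_nonempty_iff.2 (h1 n).1.1))
  have h6 : Tendsto m atTop atTop := tendsto_natCast_atTop_atTop.comp h3.tendsto_atTop
  refine ⟨fun n => (f n).1, fun n => (h1 n).1,
    fun j => {t | ∀ l, ‖(f l).1 j • (t : T)‖ ≤ 1 / (m l * N l)}, fun j => ?_, fun x hx => ?_⟩
  · have h0 (c : ℤ) : Continuous fun t : ℝ => ‖c • (t : T)‖ :=
      ((continuous_zsmul c).comp (AddCircle.continuous_mk' 1)).norm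
    have h7 : ∀ᶠ k in atTop, ∀ l > k, (((f k).2.1 ^ 2 : ℕ) : ℤ) ∣ (f l).1 j := by
      by_cases h : ∃ k, j ∈ (f k).2.2
      · obtain ⟨k, h⟩ := h
        exact (eventually_gt_atTop k).mono fun n h' l h'' => (h2 n l h'').2.2 j ((h2 k n h').2.1 h)
      · exact .of_forall fun n l _ => by
          rw [Finsupp.notMem_support_iff.1 fun h' => h ⟨l, (h1 l).2.1 h'⟩]
          exact dvd_zero _
    have h8 : Preperfect {t : ℝ | (∀ l, ‖(f l).1 j • (t : T)‖ < 1 / (m l * N l)) ∧
        ∀ᶠ l in atTop, (f l).1 j • (t : T) = 0} := fun t ⟨h8, h9⟩ => by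
      have h10 : Tendsto (fun k => t + 1 / m k ^ 2) atTop (𝓝 t) := by
        simpa using ((tendsto_pow_atTop two_ne_zero).comp h6).inv_tendsto_atTop.const_add t
      obtain ⟨L, hL⟩ := eventually_atTop.1 h9
      refine accPt_iff_frequently.2 (h10.frequently (Eventually.frequently ?_))
      filter_upwards [h7, (eventually_all_finite (finite_Iio L)).2 fun l _ =>
        (((h0 _).tendsto t).comp h10).eventually_lt_const (h8 l)] with k h11 h12
      have h13 (l) (h : k < l) : (f l).1 j • ((1 / m k ^ 2 : ℝ) : T) = 0 := by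
        obtain ⟨c, hc⟩ := h11 l h
        rw [← AddCircle.coe_zsmul, AddCircle.coe_eq_zero_iff]
        refine ⟨c, ?_⟩
        have := h4 k
        simp only [hc, zsmul_eq_mul, m] at *
        push_cast
        field_simp
      refine ⟨by simp [(h4 k).ne'], fun l => (lt_or_ge l L).elim (h12 l) fun h => ?_, ?_⟩
      · rw [AddCircle.coe_add, smul_add, hL l h, zero_add]
        rcases lt_or_ge k l with h14 | h14
        · rw [h13 l h14, norm_zero]
          exact one_div_pos.2 (mul_pos (h4 l) (h5 l))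
        have h15 : m l ≤ m k := Nat.cast_le.2 (h3.monotone h14)
        have h16 : |((f l).1 j : ℝ)| * N l < m l := by
          have := (h1 l).2.2.2 j
          simp only [m, N, ← Int.cast_abs, ← Int.natCast_natAbs]
          exact_mod_cast this
        rw [← AddCircle.coe_zsmul]
        refine (QuotientAddGroup.norm_mk_le_norm).trans_lt ?_
        rw [zsmul_eq_mul, Real.norm_eq_abs, abs_mul, abs_of_pos (one_div_pos.2 (pow_pos (h4 k) 2)),
          mul_one_div, div_lt_div_iff₀ (pow_pos (h4 k) 2) (mul_pos (h4 l) (h5 l))]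
        nlinarith [h4 l, h5 l, mul_lt_mul_of_pos_left h16 (h4 l)]
      · filter_upwards [h9, eventually_gt_atTop k] with l h h'
        rw [AddCircle.coe_add, smul_add, h, h13 l h', zero_add]
    obtain ⟨g, h9, -, h10⟩ := h8.perfect_closure.exists_nat_bool_injection
      ⟨0, subset_closure ⟨fun l => by simpa using one_div_pos.2 (mul_pos (h4 l) (h5 l)), by simp⟩⟩
    refine le_of_eq_of_le (by simp) ((mk_range_eq g h10).ge.trans (mk_le_mk_of_subset
      (h9.trans (closure_minimal (fun t h l => (h.1 l).le) ?_))))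
    simp only [setOf_forall]
    exact isClosed_iInter fun l => isClosed_le (h0 _) continuous_const
  · refine squeeze_zero_norm (fun n => ?_) h6.inv_tendsto_atTop
    rw [Finsupp.linearCombination_apply]
    refine (norm_sum_le_of_le _ fun j _ => hx j n).trans_eq ?_
    have := h5 n
    rw [Finset.sum_const, nsmul_eq_mul, Pi.inv_apply]
    change N n * _ = _
    field_simp

lemma Box.zero {ι : Type} {b : ℕ → ι →₀ ℤ} {P : ι → Set ℝ} (h : Box b P) {c : ι →₀ ℤ}
    (hc : ∀ x : ι → ℝ, (∀ j, x j ∈ P j) → lc (fun j => (x j : T)) c = 0) : c = 0 := by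
  classical
  choose x hx using fun j => nonempty_coe_sort.1
    (mk_ne_zero_iff.1 (continuum_pos.trans_le (h.1 j)).ne')
  ext j
  by_contra h1
  refine (aleph0_lt_continuum.trans_le (h.1 j)).not_ge (le_aleph0_iff_set_countable.2
    ((countable_range fun m : ℤ => x j + m / c j).mono fun t ht => ?_))
  have h2 := hc (x + Pi.single j (t - x j)) fun i => by
    by_cases h : i = j <;> simp [h, ht, hx]
  rw [show (fun i => ((x + Pi.single j (t - x j) : ι → ℝ) i : T)) = (fun i => (x i : T)) +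
    Pi.single j ((t - x j : ℝ) : T) from funext fun i => by by_cases h : i = j <;> simp [h],
    lc_add, hc x hx, zero_add, Finsupp.linearCombination_apply,
    Finsupp.sum_eq_single j (fun j _ h => by simp [h]) (by simp), Pi.single_eq_same,
    ← AddCircle.coe_zsmul, AddCircle.coe_eq_zero_iff] at h2
  obtain ⟨m, h2⟩ := h2
  have : (c j : ℝ) ≠ 0 := by simpa using h1
  refine ⟨m, ?_⟩
  simp only [zsmul_eq_mul, mul_one] at h2
  simp only [h2]
  field_simp
  ring

end Pool.Agent.H.MP_5131b0_al
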