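import Mathlib
import Pool.Agent.H.MP_5131b0_al.A
import Pool.Agent.Lib.helper23.HMP

set_option autoImplicit false

open Set Filter Topology Pool.Agent.Lib.helper23 Pool.Agent.Lib.helper23.Dual TopologicalSpace
open Cardinal hiding univ

namespace Pool.Agent.H.MP_5131b0_al

lemma lc_congr {I : Type} {x y : I → T} {k : I →₀ ℤ} (h : ∀ i ∈ k.support, x i = y i) :
    lc x k = lc y k := by
  simp only [Finsupp.linearCombination_apply]
  exact Finsupp.sum_congr fun i hi => by rw [h i hi]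

abbrev W := (ℕ → ℝ →₀ ℤ) × Bool × ℝ

theorem core : ∃ a : ℝ → W → T,
    (∀ C : Set (W →₀ ℤ), C.Countable → ∀ y, ∃ i, ∀ g ∈ C, lc (a i) g = lc y g) ∧
    (∀ k ≠ 0, {g | lc (fun i => lc (a i) g) k = 0}.Countable) ∧
    (∀ i, Dense {t | ∀ g, lc (a i) g ≠ t}) ∧ ∀ b, (∃ P, Box b P) →
      ¬ {α | Tendsto (fun n => lc (fun i => a i α) (b n)) atTop (𝓝 0)}.Countable ∧
      ((∀ n, b n ≠ 0) → ∃ α, ¬ Tendsto (fun n => lc (fun i => a i α) (b n)) atTop (𝓝 0)) := by
  classical
  obtain ⟨σ, hσ⟩ : ∃ σ : ℝ → ℕ → W × ℝ, σ.Surjective :=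
    (Cardinal.eq.1 (by simp [mk_real, aleph0_le_continuum])).elim fun e : ℝ ≃ _ => ⟨e, e.surjective⟩
  choose u hu using QuotientAddGroup.mk_surjective (s := AddSubgroup.zmultiples (1 : ℝ))
  choose P h1 h2 using fun b : ℕ → ℝ →₀ ℤ => show ∃ P : ℝ → Set ℝ, (∀ i, 𝔠 ≤ #(P i)) ∧
      ((∃ P, Box b P) → Box b P) by
    by_cases h : ∃ P, Box b P
    · exact h.imp fun P h => ⟨h.1, fun _ => h⟩
    · exact ⟨fun _ => univ, by simp [mk_real, aleph0_le_continuum], fun h' => (h h').elim⟩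
  choose! Y hY using bohr (I := ℝ)
  let s : W → ℝ → ℝ := fun α i => if α.2.1 then u (Y α.1 i) else 0
  obtain ⟨v, L, h3, h4, h5⟩ := indep (J := ℝ × W) (by simp [mk_real, aleph0_le_continuum])
    (fun p => (· + s p.2 p.1) '' P p.2.1 p.1) fun p => by
      rw [mk_image_eq (add_left_injective _)]
      exact h1 _ _
  let Λ : ℝ × W → T →+ ℚ := fun p => QuotientAddGroup.lift _
    ((Finsupp.lapply (R := ℚ) (some p)).comp L).toAddMonoidHom (by
      rintro _ ⟨n, rfl⟩
      change L (n • 1) _ = 0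
      rw [map_zsmul, h5]
      simp)
  have h6 (p) (x : ℝ) : Λ p x = L x (some p) := rfl
  let a : ℝ → W → T := fun i α =>
    if h : ∃ n, (σ i n).1 = α then ((σ i h.choose).2 : T) else (v (i, α) : T)
  have h7 (i j) : {α | ∃ n, (σ i n).1 = α ∨ Λ (j, α) (σ i n).2 ≠ 0}.Countable := by
    simp only [setOf_exists, setOf_or]
    exact countable_iUnion fun n => (by simp : Set.Countable _).union
      (((L (σ i n).2).support.finite_toSet.preimage (f := fun α => some (j, α))
        fun _ _ _ _ h => by simpa using h).countable.mono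
          fun α h => by exact Finsupp.mem_support_iff.2 h)
  have h8 (i j α) (h : ¬ ∃ n, (σ i n).1 = α ∨ Λ (j, α) (σ i n).2 ≠ 0) (g) :
      Λ (j, α) (lc (a i) g) = if i = j then g α else 0 := by
    push Not at h
    have this (β) : Λ (j, α) (a i β) = if β = α then (if i = j then 1 else 0) else 0 := by
      by_cases h' : ∃ n, (σ i n).1 = β
      · rw [if_neg (by rintro rfl; exact h'.elim fun n => (h n).1)]
        simp only [a, dif_pos h', h]
      · simp only [a, dif_neg h', h6, h4, Finsupp.single_apply]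
        by_cases h : β = α <;> simp [h]
    rw [Finsupp.linearCombination_apply, map_finsuppSum,
      Finsupp.sum_eq_single α (fun β _ h => by simp [this, h]) (by simp)]
    simp [this]
  have h9 : Uncountable W := by rw [← aleph0_lt_mk_iff]; simp [mk_real, aleph0_lt_continuum, aleph0_le_continuum]
  have h10 (b c) : {r | ¬ ∀ n, lc (fun i => a i (b, c, r)) (b n) =
      lc (fun i => (v (i, b, c, r) : T)) (b n)}.Countable := by
    refine (countable_iUnion fun n => (b n).support.countable_toSet.biUnion fun i _ =>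
      countable_range fun m => (σ i m).1.2.2).mono fun r h => by_contra fun h' =>
        h fun n => lc_congr fun i hi => dif_neg fun ⟨m, h⟩ => h' ?_
    exact mem_iUnion.2 ⟨n, mem_biUnion hi ⟨m, by simp only [h]⟩⟩
  have h11 (b) (h : ∃ P, Box b P) (c r) : Tendsto (fun n => lc (fun i => (v (i, b, c, r) : T)) (b n)
      - lc (fun i => (s (b, c, r) i : T)) (b n)) atTop (𝓝 0) := by
    choose x h11 h12 using fun i => h3 (i, b, c, r)
    refine ((h2 b h).2 x h11).congr fun n => eq_sub_of_add_eq ?_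
    simp only [← lc_add, ← h12, AddCircle.coe_add]
    rfl
  refine ⟨a, fun C hC y => ?_, fun k hk => ?_, fun i => ?_, fun b h => ⟨fun h12 => ?_, fun hb => ?_⟩⟩
  · obtain ⟨e, he⟩ := ((hC.biUnion fun g _ => g.support.countable_toSet).insert
      default).exists_eq_range (insert_nonempty _ _)
    obtain ⟨i, hi⟩ := hσ fun n => (e n, u (y (e n)))
    refine ⟨i, fun g hg => lc_congr fun α h => ?_⟩
    have h : ∃ n, (σ i n).1 = α := hi ▸ he.le (Or.inr (mem_biUnion hg h))
    have := h.choose_spec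
    simp only [a, dif_pos h]
    generalize h.choose = m at *
    simp only [hi] at *
    rw [hu, this]
  · obtain ⟨j, hj⟩ := Finsupp.ne_iff.1 hk
    refine (count_supp (k.support.countable_toSet.biUnion fun i _ => h7 i j)).mono fun g hg => ?_
    intro α h
    have := congrArg (Λ (j, α)) hg
    rw [Finsupp.linearCombination_apply, map_finsuppSum, Finsupp.sum, Finset.sum_congr rfl
      fun i hi => by rw [map_zsmul, h8 i j α fun h' => h (mem_biUnion hi h')]] at this
    simpa [Finsupp.mem_support_iff.2 hj, show k j ≠ 0 from hj] using this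
  · obtain ⟨α, -, h⟩ := not_subset.1 fun h => not_countable_univ ((h7 i (i + 1)).mono h)
    have h12 : v (i + 1, α) ≠ 0 := fun h => by simpa [h] using (h4 (i + 1, α)).symm
    refine (QuotientAddGroup.mk_surjective.denseRange.dense_image (AddCircle.continuous_mk' 1)
      (((mul_right_surjective₀ h12).denseRange.comp Rat.denseRange_cast
        (continuous_mul_right _)).diff_singleton 0)).mono ?_
    rintro _ ⟨_, ⟨⟨q, rfl⟩, h13⟩, rfl⟩ g h14
    have := h8 i _ α h g
    rw [h14, h6] at this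
    simp [← Rat.smul_def, h4] at this
    simp [this] at h13
  · refine not_countable_univ (((h10 b false).union (h12.preimage_of_injOn
      (f := fun r => (b, false, r)) fun _ _ _ _ h => by simpa using h)).mono fun r _ => ?_)
    refine or_iff_not_imp_left.2 fun h13 => ?_
    have := h11 b h false r
    simp only [← not_not.1 h13] at this
    simpa [s, Finsupp.linearCombination_apply] using this
  · obtain ⟨r, -, h12⟩ := not_subset.1 fun h => not_countable_univ ((h10 b true).mono h)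
    refine ⟨(b, true, r), fun h13 => hY b hb ?_⟩
    simp only [not_not.1 h12] at h13
    simpa [s, hu] using h13.sub (h11 b h true r)

theorem zd {X : Type} [TopologicalSpace X] {j : X → ℝ → T} (h1 : IsInducing j) (h2 : DenseRange j)
    (h3 : ∀ i, Dense {t | ∀ x, j x i ≠ t}) (f : X → ℝ) (hf : Continuous f) :
    ∃ U, IsClopen U ∧ f ⁻¹' {0} ⊆ U ∧ Disjoint U (f ⁻¹' {1}) := by
  classical
  have hc (i) : Continuous (j · i) := (continuous_apply i).comp h1.continuous
  choose 𝒰 h4 h5 h6 using fun i => (isTopologicalBasis_of_isOpen_of_nhds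
    (s := {u : Set T | IsOpen u ∧ IsClosed ((j · i) ⁻¹' u)}) (fun _ h => h.1) fun t u ht hu => by
      obtain ⟨x, rfl⟩ := QuotientAddGroup.mk_surjective t
      have hd := (h3 i).preimage (QuotientAddGroup.isOpenMap_coe (N := .zmultiples (1 : ℝ)))
      obtain ⟨l, m, h4, h5⟩ := mem_nhds_iff_exists_Ioo_subset.1
        ((hu.preimage (AddCircle.continuous_mk' 1)).mem_nhds ht)
      obtain ⟨r, h6, h7⟩ := hd.exists_between h4.1
      obtain ⟨s, h8, h9⟩ := hd.exists_between h4.2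
      refine ⟨(↑) '' Ioo r s, ⟨QuotientAddGroup.isOpenMap_coe _ isOpen_Ioo, ?_⟩,
        ⟨x, ⟨h7.2, h9.1⟩, rfl⟩, image_subset_iff.2 ((Ioo_subset_Ioo h7.1.le h9.2.le).trans h5)⟩
      convert ((isCompact_Icc (a := r) (b := s)).image
        (AddCircle.continuous_mk' 1)).isClosed.preimage (hc i) using 1
      refine (preimage_mono (image_mono Ioo_subset_Icc_self)).antisymm fun y ⟨z, h, h'⟩ =>
        ⟨z, ⟨h.1.lt_of_ne ?_, h.2.lt_of_ne ?_⟩, h'⟩ <;> rintro rfl
      exacts [h6 y h'.symm, h8 y h'.symm]).exists_countable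
  let box := fun s : Set (ℝ × Set T) => ⋂ p ∈ s, {x : ℝ → T | x p.1 ∈ p.2}
  let G := fun s : Set (ℝ × Set T) => s.Finite ∧ ∀ p ∈ s, p.2 ∈ 𝒰 p.1
  have h7 (s) (h : G s) : IsOpen (box s) := h.1.isOpen_biInter fun p hp =>
    (h4 _ (h.2 p hp)).1.preimage (continuous_apply p.1)
  have h8 (s) (h : G s) : IsClopen (j ⁻¹' box s) := ⟨by
    rw [preimage_iInter₂]
    exact isClosed_biInter fun p hp => (h4 _ (h.2 p hp)).2, (h7 s h).preimage h1.continuous⟩
  have h9 (O) (hO : IsOpen O) (x) (hx : x ∈ O) : ∃ s, G s ∧ x ∈ box s ∧ box s ⊆ O := by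
    obtain ⟨F, u, h9, h10⟩ := isOpen_pi_iff.1 hO x hx
    choose! w h11 h12 h13 using fun i hi => (h6 i).exists_subset_of_mem_open (h9 i hi).2 (h9 i hi).1
    refine ⟨(fun i => (i, w i)) '' F, ⟨F.finite_toSet.image _, ?_⟩, ?_, fun y hy => h10 fun i hi =>
      h13 i hi (mem_iInter₂.1 hy _ ⟨i, hi, rfl⟩)⟩
    · rintro _ ⟨i, h, rfl⟩
      exact h11 i h
    · refine mem_iInter₂.2 ?_
      rintro _ ⟨i, h, rfl⟩
      exact h12 i h
  obtain ⟨S, h10, h11⟩ : ∃ S : Set (ℝ → T), S.Countable ∧ Dense S := by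
    obtain ⟨D, h10, h11⟩ := exists_countable_dense T
    have := h10.to_subtype
    have := h11.nonempty.to_subtype
    obtain ⟨e⟩ : Nonempty (ℝ ≃ (ℕ → Bool)) := Cardinal.eq.1 (by simp [mk_real, aleph0_le_continuum])
    obtain ⟨S, h12, h13⟩ := exists_interp D
    refine ⟨_, h12.image fun s i => (s (e i) : T), dense_iff_inter_open.2 fun O hO ⟨x, hx⟩ => ?_⟩
    obtain ⟨F, u, h14, h15⟩ := isOpen_pi_iff.1 hO x hx
    choose! d h16 using fun i hi => Subtype.exists'.1 (bex_def.2
      (h11.exists_mem_open (h14 i hi).1 ⟨_, (h14 i hi).2⟩))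
    obtain ⟨s, h17, h18⟩ := h13 (F.image e) fun c => d (e.symm c)
    exact ⟨_, h15 fun i hi => by simpa [h18 _ (Finset.mem_image_of_mem e hi)] using h16 i hi,
      s, h17, rfl⟩
  have h12 (O') (hO' : IsOpen O') : ∃ J : Set ℝ, J.Countable ∧ ∀ g ∉ closure O',
      ∃ s, G s ∧ Prod.fst '' s ⊆ J ∧ j g ∈ box s ∧ Disjoint (j ⁻¹' box s) O' := by
    obtain ⟨O, hO, rfl⟩ := h1.isOpen_iff.1 hO'
    choose! t h12 h13 h14 using h9 O hO
    let J := ⋃ y ∈ O ∩ S, Prod.fst '' t y
    refine ⟨J, (h10.mono inter_subset_right).biUnion fun y h => ((h12 y h.1).1.image _).countable,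
      fun g hg => ?_⟩
    obtain ⟨V, hV, h15⟩ := h1.isOpen_iff.1 (isClosed_closure (s := j ⁻¹' O)).isOpen_compl
    obtain ⟨s, h16, h17, h18⟩ := h9 V hV _ (h15.ge hg)
    have h19 : G (s ∩ Prod.fst ⁻¹' J) := ⟨h16.1.inter_of_left _, fun p h => h16.2 p h.1⟩
    refine ⟨_, h19, image_subset_iff.2 inter_subset_right,
      biInter_subset_biInter_left inter_subset_left h17, disjoint_left.2 fun x h20 h21 => ?_⟩
    obtain ⟨y, ⟨h22, h23⟩, h24⟩ := h11.inter_open_nonempty _ ((h7 _ h19).inter hO) ⟨_, h20, h21⟩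
    refine (h2.exists_mem_open ((h7 _ h16).inter (h7 _ (h12 y h23)))
      ⟨J.piecewise y (j g), mem_iInter₂.2 fun p hp => ?_, mem_iInter₂.2 fun p hp => ?_⟩).elim
      fun z h => h15.le (h18 h.1) (subset_closure (h14 y h23 h.2))
    · by_cases h : p.1 ∈ J
      · simpa [h] using mem_iInter₂.1 h22 p ⟨hp, h⟩
      · simpa [h] using mem_iInter₂.1 h17 p hp
    · simpa [show p.1 ∈ J from mem_biUnion (x := y) ⟨h23, h24⟩ ⟨p, hp, rfl⟩] using
        mem_iInter₂.1 (h13 y h23) p hp
  obtain ⟨J₀, h13, h14⟩ := h12 _ (isOpen_lt hf (continuous_const (y := 1 / 3)))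
  obtain ⟨J₁, h15, h16⟩ := h12 _ (isOpen_lt (continuous_const (y := 2 / 3)) hf)
  let 𝓕 := {s | G s ∧ Prod.fst '' s ⊆ J₀ ∪ J₁ ∧
    (Disjoint (j ⁻¹' box s) {x | f x < 1 / 3} ∨ Disjoint (j ⁻¹' box s) {x | 2 / 3 < f x})}
  have h17 (g) : ∃ s ∈ 𝓕, j g ∈ box s := by
    rcases lt_or_ge (f g) (2 / 3) with h | h
    · obtain ⟨s, h17, h18, h19, h20⟩ := h16 g fun h' =>
        h.not_ge (closure_lt_subset_le continuous_const hf h')
      exact ⟨s, ⟨h17, h18.trans subset_union_right, Or.inr h20⟩, h19⟩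
    · obtain ⟨s, h17, h18, h19, h20⟩ := h14 g fun h' =>
        (by linarith : 1 / 3 < f g).not_ge (closure_lt_subset_le hf continuous_const h')
      exact ⟨s, ⟨h17, h18.trans subset_union_left, Or.inl h20⟩, h19⟩
  obtain ⟨e, he⟩ := ((countable_setOf_finite_subset ((h13.union h15).biUnion fun i _ =>
    (h5 i).image (Prod.mk i))).mono (s₁ := 𝓕)
    fun s h => by exact ⟨h.1.1, fun p hp => mem_biUnion (h.2.1 ⟨p, hp, rfl⟩) ⟨_, h.1.2 p hp, rfl⟩⟩
    ).exists_eq_range ((h17 h2.nonempty.some).imp fun _ h => h.1)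
  let B := fun n => j ⁻¹' box (e n)
  have h18 (n) : e n ∈ 𝓕 := he.ge ⟨n, rfl⟩
  have h19 (n) : IsOpen (disjointed B n) := (disjointedRec (p := IsClopen)
    (fun _ i h => h.diff (h8 _ (h18 i).1)) (h8 _ (h18 n).1)).2
  have h20 (g) : ∃ n, g ∈ disjointed B n := by
    obtain ⟨s, h, h'⟩ := h17 g
    obtain ⟨n, rfl⟩ := he.le h
    exact mem_iUnion.1 (iUnion_disjointed.ge (mem_iUnion.2 ⟨n, h'⟩))
  let N := {n | Disjoint (B n) {x | 2 / 3 < f x}}
  refine ⟨⋃ n ∈ N, disjointed B n, ⟨⟨isOpen_iff_forall_mem_open.2 fun g hg => ?_⟩,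
    isOpen_biUnion fun n _ => h19 n⟩, fun g hg => ?_, disjoint_iUnion₂_left.2 fun n h =>
      h.mono (disjointed_subset B n) fun g (h : f g = 1) => by simp only [mem_ofPred_eq, h]; norm_num⟩
  · obtain ⟨n, h⟩ := h20 g
    refine ⟨_, fun x h21 h22 => ?_, h19 n, h⟩
    obtain ⟨m, h22, h23⟩ := mem_iUnion₂.1 h22
    obtain rfl : n = m := by_contra fun h => disjoint_left.1 (disjoint_disjointed B h) h21 h23
    exact hg (mem_biUnion h22 h)
  · obtain ⟨n, h⟩ := h20 g
    refine mem_biUnion ((h18 n).2.2.resolve_left fun h' => disjoint_left.1 h'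
      (disjointed_subset B n h) ?_) h
    simp only [mem_ofPred_eq, show f g = 0 from hg]
    norm_num

end Pool.Agent.H.MP_5131b0_al
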