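import Mathlib
import Pool.Agent.H.MP_5131b0_al.B

set_option autoImplicit false

open Set Filter Topology Pool.Agent.Lib.helper23 Pool.Agent.Lib.helper23.Dual TopologicalSpace
open Cardinal hiding univ
open scoped Pointwise

namespace Pool.Agent.H.MP_5131b0_al

lemma sep {A : Type} [AddCommGroup A] (C : AddSubgroup A) {g : A} (h : g ∉ C) :
    ∃ u : A →+ T, (∀ x ∈ C, u x = 0) ∧ u g ≠ 0 := by
  obtain ⟨c, hc⟩ := CharacterModule.exists_character_apply_ne_zero_of_ne_zero
    (mt (QuotientAddGroup.eq_zero_iff g).1 h)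
  let m : AddCircle (1 : ℚ) →+ T := QuotientAddGroup.map _ _ (Rat.castHom ℝ).toAddMonoidHom (by
    rintro _ ⟨n, rfl⟩
    exact ⟨n, by simp⟩)
  refine ⟨m.comp (AddMonoidHom.comp c (QuotientAddGroup.mk' C)), fun x hx => ?_, fun h => hc ?_⟩
  · simp [(QuotientAddGroup.eq_zero_iff x).2 hx]
  · obtain ⟨q, hq⟩ := QuotientAddGroup.mk_surjective (c g)
    change m (c g) = 0 at h
    rw [← hq] at h ⊢
    obtain ⟨n, h⟩ := (AddCircle.coe_eq_zero_iff (1 : ℝ)).1 h
    exact (AddCircle.coe_eq_zero_iff _).2 ⟨n, Rat.cast_injective (α := ℝ) (by simpa using h)⟩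

lemma clus {X Y : Type} [TopologicalSpace X] [TopologicalSpace Y] [T2Space Y] {u : ℕ → X} {x : X}
    (h : MapClusterPt x atTop u) {f : X → Y} (hf : Continuous f) {y : Y}
    (h' : Tendsto (f ∘ u) atTop (𝓝 y)) : f x = y :=
  eq_of_nhds_neBot ((h.continuousAt_comp hf.continuousAt).clusterPt.mono h')

theorem main :
    ∃ H : Subgroup (ℝ → Circle),
      Dense (H : Set (ℝ → Circle)) ∧
      ¬ (H : Set (ℝ → Circle)).Countable ∧
      (∀ f : H → ℝ, Continuous f →
        ∃ U : Set H, IsClopen U ∧ f ⁻¹' {0} ⊆ U ∧ Disjoint U (f ⁻¹' {1})) ∧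
      (∀ K : Subgroup H, (K : Set H).Countable → IsClosed (K : Set H)) ∧
      (∀ K : Subgroup H, ¬ (K : Set H).Countable → Dense (K : Set H)) ∧
      (∃ e : H ≃ₜ* PontryaginDual (PontryaginDual H),
        ∀ (g : H) (χ : PontryaginDual H), e g χ = χ g) := by
  classical
  obtain ⟨a, h1, h2, h3, h4⟩ := core
  let Φ : Multiplicative (W →₀ ℤ) →* (ℝ → Circle) :=
    MonoidHom.mk' (fun g i => AddCircle.toCircle (lc (a i) g.toAdd)) fun g h => funext fun i => by
      simp [AddCircle.toCircle_add]
  let ι : (W →₀ ℤ) →+ Additive Φ.range := Φ.rangeRestrict.toAdditiveRight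
  have hι : Function.Surjective ι := Φ.rangeRestrict_surjective
  let θ : (ℝ → Circle) ≃ₜ (ℝ → T) := .piCongrRight fun _ => lg
  let ψ : Additive Φ.range →+ ℝ → T :=
    AddMonoidHom.pi fun i => lgh ((Pi.evalMonoidHom _ i).comp Φ.range.subtype)
  have h5 : IsEmbedding ψ := θ.isEmbedding.comp IsEmbedding.subtypeVal
  have h6 (g i) : ψ (ι g) i = lc (a i) g := lg_to _
  have h6' (g) : ψ (ι g) = fun i => lc (a i) g := funext (h6 g)
  have hc (i) : Continuous (ψ · i) := (continuous_apply i).comp h5.continuous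
  have h7 (K : AddSubgroup (Additive Φ.range)) (h : ¬ (K : Set (Additive Φ.range)).Countable) :
      Dense (ψ '' K) := fun y => dual' (K.map ψ) y fun k hk => by
    rw [show k = 0 from by_contra fun h' => h (((h2 k h').image ι).mono fun x hx => by
      obtain ⟨g, rfl⟩ := hι x
      exact ⟨g, (congrArg (lc · k) (h6' g)).symm.trans (hk _ ⟨_, hx, rfl⟩), rfl⟩), map_zero]
  have h8 (K : AddSubgroup (W →₀ ℤ)) (h : (K : Set (W →₀ ℤ)).Countable) (g) (hg : g ∉ K) :
      ∃ i, (∀ x ∈ K, ψ (ι x) i = 0) ∧ ψ (ι g) i ≠ 0 := by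
    obtain ⟨u, h8, h9⟩ := sep K hg
    obtain ⟨i, hi⟩ := h1 _ (h.insert g) fun α => u (.single α 1)
    have h10 (x) : lc (fun α => u (.single α 1)) x = u x := by
      conv_rhs => rw [← x.sum_single, map_finsuppSum]
      simp [Finsupp.linearCombination_apply, ← map_zsmul]
    exact ⟨i, fun x hx => by rw [h6, hi x (Or.inr hx), h10, h8 x hx],
      by rwa [h6, hi g (Or.inl rfl), h10]⟩
  have h9 : Function.Injective ι := (injective_iff_map_eq_zero _).2 fun g h => by_contra fun h' => by
    obtain ⟨i, -, h9⟩ := h8 ⊥ (countable_singleton 0) g h'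
    exact h9 (by simp [h])
  have h10 : ¬ (univ : Set (Additive Φ.range)).Countable := fun h => by
    have : Uncountable W := by
      rw [← aleph0_lt_mk_iff]; simp [mk_real, aleph0_lt_continuum, aleph0_le_continuum]
    exact not_countable_univ (h.preimage_of_injOn
      (h9.comp (Finsupp.single_left_injective one_ne_zero)).injOn)
  have h11 : DenseRange ψ := (h7 ⊤ h10).mono (image_subset_range _ _)
  let κ : (ℝ →₀ ℤ) → PontryaginDual Φ.range := fun k =>
    ⟨MonoidHom.mk' (fun h => AddCircle.toCircle (lc (ψ (.ofMul h)) k)) fun g h => by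
      rw [ofMul_mul, map_add, lc_add, AddCircle.toCircle_add],
      AddCircle.continuous_toCircle.comp ((lc_cont k).comp h5.continuous)⟩
  have h12 (k) (h : Φ.range) : κ k h = AddCircle.toCircle (lc (ψ (.ofMul h)) k) := rfl
  have h13 (k) (α) : lg (κ k (ι (.single α 1)).toMul) = lc (fun i => a i α) k := by
    rw [h12, lg_to, ofMul_toMul, h6']
    simp
  have h14 : IsEmbedding fun (h : Φ.range) i => κ (.single i 1) h := by
    convert IsEmbedding.subtypeVal with h i
    rw [h12, Finsupp.linearCombination_single, one_smul]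
    exact to_lg _
  refine ⟨Φ.range, ?_, fun h => h10 (countable_univ_iff.2 h.to_subtype), zd (X := Φ.range)
    h5.isInducing h11 fun i => (h3 i).mono fun t h x => ?_, fun K h => ?_, fun K h =>
    h5.isInducing.dense_iff.2 fun x => h7 K.toAddSubgroup h _,
    refl _ h14 (fun K hK => ?_) fun K hK => ?_⟩
  · exact (θ.symm.surjective.denseRange.comp h11 θ.symm.continuous).mono (by
      rintro _ ⟨x, rfl⟩
      exact mem_of_eq_of_mem (θ.symm_apply_apply x.toMul.1) x.toMul.2)
  · obtain ⟨g, rfl⟩ := hι x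
    exact h6 g i ▸ h g
  · refine isClosed_iff_nhds.2 fun x hx => by_contra fun h15 => ?_
    obtain ⟨g, rfl⟩ := hι x
    obtain ⟨i, h16, h17⟩ := h8 (K.toAddSubgroup.comap ι) (h.preimage h9) g h15
    obtain ⟨y, h18, h19⟩ := hx _ ((isOpen_ne_fun (hc i) continuous_const).mem_nhds h17)
    obtain ⟨y, rfl⟩ := hι y
    exact h18 (h16 y h19)
  · by_contra h
    obtain ⟨b, h15, P, h16⟩ := seq (Set.Infinite.preimage (f := ι) h fun x _ => hι x)
    have h17 : Tendsto (ι ∘ b) atTop (𝓝 0) := (IsCompact.image (hK.prod hK)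
      (continuous_div' (G := Φ.range))).tendsto_nhds_of_unique_mapClusterPt (.of_forall fun n => by
        obtain ⟨x, h17, y, h18, h19⟩ := (h15 n).2
        exact ⟨(ι x, ι y), ⟨h17, h18⟩, (map_sub ι x y).symm.trans (congrArg ι h19)⟩) fun c _ hc' => by
          obtain ⟨g, rfl⟩ := hι c
          rw [h16.zero (c := g) fun x hx => ?_, map_zero]
          obtain ⟨i, hi⟩ := h1 _ ((countable_range b).insert g) fun j => (x j : T)
          rw [← hi g (Or.inl rfl), ← h6]
          exact clus hc' (hc i) ((h16.2 x hx).congr fun n =>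
            ((h6 _ _).trans (hi _ (Or.inr ⟨n, rfl⟩))).symm)
    obtain ⟨y, h18⟩ := bohr b fun n => (h15 n).1
    obtain ⟨i, hi⟩ := h1 _ (countable_range b) y
    refine h18 (.congr (fun n => (h6 _ i).trans (hi _ ⟨n, rfl⟩)) ?_)
    simpa [Function.comp_def] using ((hc i).tendsto 0).comp h17
  · by_contra h
    have h15 : Function.Surjective κ := fun χ => by
      obtain ⟨k, h⟩ := CRm (fun i => (κ (.single i 1)).toMonoidHom) h14.isInducing χ.toMonoidHom
        χ.continuous
      refine ⟨k, PontryaginDual.ext fun x => ((h x).trans ?_).symm⟩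
      rw [h12, to_lc]
      exact Finsupp.prod_congr fun i _ => congrArg (· ^ _) (congrArg AddCircle.toCircle (by simp))
    have h0 (α) : Continuous fun χ : PontryaginDual Φ.range => lg (χ (ι (.single α 1)).toMul) :=
      lg.continuous.comp (ev_cont _)
    obtain ⟨b, h16, h17⟩ := seq (Set.Infinite.preimage (f := κ) h (by simp [h15.range_eq]))
    have h18 : Tendsto (κ ∘ b) atTop (𝓝 (κ 0)) := (IsCompact.image (hK.prod hK)
      continuous_div').tendsto_nhds_of_unique_mapClusterPt (.of_forall fun n => by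
        obtain ⟨x, h17, y, h18, h19⟩ := (h16 n).2
        refine ⟨(κ x, κ y), ⟨h17, h18⟩, div_eq_iff_eq_mul.2 (PontryaginDual.ext fun z => ?_)⟩
        change _ = κ _ z * κ y z
        simp only [h12, ← AddCircle.toCircle_add, ← map_add, ← h19, sub_add_cancel]) fun c _ hc' => by
          obtain ⟨k, rfl⟩ := h15 c
          refine congrArg κ (by_contra fun h => (h4 b h17).1 (((h2 k h).preimage
            (Finsupp.single_left_injective one_ne_zero)).mono fun α h => ?_))
          have := clus hc' (h0 α) (h.congr fun n => (h13 _ _).symm)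
          simpa [h13] using this
    obtain ⟨α, h19⟩ := (h4 b h17).2 fun n => (h16 n).1
    refine h19 ?_
    simpa [Function.comp_def, h13] using ((h0 α).tendsto _).comp h18

end Pool.Agent.H.MP_5131b0_al
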